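import Mathlib

/-! Helper file: a symmetric bisymmetric strictly increasing operation which is reflexive at two points. -/

set_option autoImplicit false

namespace Pool.Agent.H34.Bisym

open Set

/-- There is no family of pairwise non-overlapping intervals indexed by `ℕ → Bool`. -/
lemma no_family (r r' : (ℕ → Bool) → ℝ) (h : ∀ w, r w < r' w)
    (hd : ∀ w w', w ≠ w' → r' w ≤ r w' ∨ r' w' ≤ r w) : False := by
  classical
  choose q hq using fun w => exists_rat_btwn (h w)
  have hinj : Function.Injective q := by
    intro w w' e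
    by_contra hne
    rcases hd w w' hne with h1 | h1
    · have : (q w : ℝ) < q w' := (hq w).2.trans_le (h1.trans (hq w').1.le)
      rw [e] at this
      exact lt_irrefl _ this
    · have : (q w' : ℝ) < q w := (hq w').2.trans_le (h1.trans (hq w).1.le)
      rw [e] at this
      exact lt_irrefl _ this
  let f : Set ℕ → ℕ := fun S => Encodable.encode (q fun n => decide (n ∈ S))
  refine Function.cantor_injective f ?_
  intro S S' e
  have h1 := hinj (Encodable.encode_injective e)
  ext n
  have h2 := congrFun h1 n
  simpa using h2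

section abstract

variable {α : Type*} [LinearOrder α] {F : α → α → α}

/-- The laws. -/
structure Laws (F : α → α → α) : Prop where
  bis : ∀ x y u v, F (F x y) (F u v) = F (F x u) (F y v)
  sym : ∀ x y, F x y = F y x
  mono : ∀ x, StrictMono (F x)

lemma Laws.mono' (h : Laws F) {x x' y y' : α} (hx : x ≤ x') (hy : y ≤ y') : F x y ≤ F x' y' := by
  calc F x y ≤ F x y' := (h.mono x).monotone hy
    _ = F y' x := h.sym _ _
    _ ≤ F y' x' := (h.mono y').monotone hx
    _ = F x' y' := h.sym _ _

lemma Laws.lt_left (h : Laws F) {x x' : α} (hx : x < x') (y : α) : F x y < F x' y := by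
  rw [h.sym x y, h.sym x' y]
  exact h.mono y hx

/-- A reflexive point acts by endomorphisms. -/
lemma Laws.endo (h : Laws F) {a : α} (ha : F a a = a) (x y : α) :
    F a (F x y) = F (F a x) (F a y) := by
  conv_lhs => rw [← ha]
  exact h.bis _ _ _ _

lemma Laws.endo_iter (h : Laws F) {a : α} (ha : F a a = a) (k : ℕ) (x y : α) :
    (F a)^[k] (F x y) = F ((F a)^[k] x) ((F a)^[k] y) := by
  induction k generalizing x y with
  | zero => rfl
  | succ k ih => rw [Function.iterate_succ_apply, Function.iterate_succ_apply,
      Function.iterate_succ_apply, h.endo ha, ih]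

omit [LinearOrder α] in
lemma iter_fix {a : α} (ha : F a a = a) (k : ℕ) : (F a)^[k] a = a :=
  Function.iterate_fixed ha k

/-! ### The dyadic grid spanned by two reflexive points -/

/-- The dyadic grid. -/
def grid (F : α → α → α) (a b : α) : ℕ → ℕ → α
  | 0, i => if i = 0 then a else b
  | n + 1, i => F (grid F a b n (i / 2)) (grid F a b n ((i + 1) / 2))

lemma grid_refl (h : Laws F) {a b : α} (ha : F a a = a) (hb : F b b = b) (n i : ℕ) :
    F (grid F a b n i) (grid F a b n i) = grid F a b n i := by
  induction n generalizing i with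
  | zero => by_cases hi : i = 0 <;> simp [grid, hi, ha, hb]
  | succ n ih => rw [grid, h.bis, ih, ih]

lemma grid_mono (h : Laws F) {a b : α} (hab : a ≤ b) (n : ℕ) : Monotone (grid F a b n) := by
  induction n with
  | zero =>
    intro i j hij
    by_cases hi : i = 0
    · by_cases hj : j = 0 <;> simp [grid, hi, hj, hab]
    · have hj : j ≠ 0 := by omega
      simp [grid, hi, hj]
  | succ n ih =>
    intro i j hij
    exact h.mono' (ih (by omega)) (ih (by omega))

lemma grid_double (h : Laws F) {a b : α} (ha : F a a = a) (hb : F b b = b) (n i : ℕ) :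
    grid F a b (n + 1) (2 * i) = grid F a b n i := by
  rw [grid, show 2 * i / 2 = i by omega, show (2 * i + 1) / 2 = i by omega, grid_refl h ha hb]

lemma grid_zero (h : Laws F) {a b : α} (ha : F a a = a) (hb : F b b = b) (n : ℕ) :
    grid F a b n 0 = a := by
  induction n with
  | zero => simp [grid]
  | succ n ih => rw [show (0 : ℕ) = 2 * 0 by rfl, grid_double h ha hb, ih]

lemma grid_top (h : Laws F) {a b : α} (ha : F a a = a) (hb : F b b = b) (n : ℕ) :
    grid F a b n (2 ^ n) = b := by
  induction n with
  | zero => simp [grid]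
  | succ n ih => rw [show 2 ^ (n + 1) = 2 * 2 ^ n by ring, grid_double h ha hb, ih]

lemma grid_add (h : Laws F) {a b : α} (n : ℕ) :
    ∀ i j : ℕ, i ≤ 2 ^ n → j ≤ 2 ^ n → F (grid F a b n i) (grid F a b n j) = grid F a b (n + 1) (i + j) := by
  induction n with
  | zero =>
    intro i j hi hj
    have hi' : i = 0 ∨ i = 1 := by simp at hi; omega
    have hj' : j = 0 ∨ j = 1 := by simp at hj; omega
    rcases hi' with rfl | rfl <;> rcases hj' with rfl | rfl <;> simp [grid, h.sym b a]
  | succ n ih =>
    intro i j hi hj
    rw [pow_succ] at hi hj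
    have e : F (grid F a b (n + 1) i) (grid F a b (n + 1) j) =
        F (grid F a b (n + 1) (i / 2 + (j + 1) / 2)) (grid F a b (n + 1) ((i + 1) / 2 + j / 2)) := by
      conv_lhs => rw [grid, grid, h.sym (grid F a b n (j / 2)), h.bis,
        ih _ _ (by omega) (by omega), ih _ _ (by omega) (by omega)]
    rw [e]
    change _ = F (grid F a b (n + 1) ((i + j) / 2)) (grid F a b (n + 1) ((i + j + 1) / 2))
    rcases Nat.even_or_odd' i with ⟨i', rfl | rfl⟩ <;> rcases Nat.even_or_odd' j with ⟨j', rfl | rfl⟩
    · rw [show 2 * i' / 2 + (2 * j' + 1) / 2 = i' + j' by omega,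
        show (2 * i' + 1) / 2 + 2 * j' / 2 = i' + j' by omega,
        show (2 * i' + 2 * j') / 2 = i' + j' by omega,
        show (2 * i' + 2 * j' + 1) / 2 = i' + j' by omega]
    · rw [show 2 * i' / 2 + (2 * j' + 1 + 1) / 2 = i' + j' + 1 by omega,
        show (2 * i' + 1) / 2 + (2 * j' + 1) / 2 = i' + j' by omega,
        show (2 * i' + (2 * j' + 1)) / 2 = i' + j' by omega,
        show (2 * i' + (2 * j' + 1) + 1) / 2 = i' + j' + 1 by omega]
      exact h.sym _ _
    · rw [show (2 * i' + 1) / 2 + (2 * j' + 1) / 2 = i' + j' by omega,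
        show (2 * i' + 1 + 1) / 2 + 2 * j' / 2 = i' + j' + 1 by omega,
        show (2 * i' + 1 + 2 * j') / 2 = i' + j' by omega,
        show (2 * i' + 1 + 2 * j' + 1) / 2 = i' + j' + 1 by omega]
    · rw [show (2 * i' + 1) / 2 + (2 * j' + 1 + 1) / 2 = i' + j' + 1 by omega,
        show (2 * i' + 1 + 1) / 2 + (2 * j' + 1) / 2 = i' + j' + 1 by omega,
        show (2 * i' + 1 + (2 * j' + 1)) / 2 = i' + j' + 1 by omega,
        show (2 * i' + 1 + (2 * j' + 1) + 1) / 2 = i' + j' + 1 by omega]

/-- The first place where two words differ. -/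
lemma first_diff {w w' : ℕ → Bool} (h : w ≠ w') :
    ∃ n, (∀ k < n, w k = w' k) ∧ w n ≠ w' n := by
  classical
  have h1 : ∃ n, w n ≠ w' n := by
    by_contra hc
    push Not at hc
    exact h (funext hc)
  exact ⟨Nat.find h1, fun k hk => by simpa using Nat.find_min h1 hk, Nat.find_spec h1⟩

/-- Positions in the grid `2n` selected by a word (digits `0` and `3` in base four). -/
def pos (w : ℕ → Bool) : ℕ → ℕ
  | 0 => 0
  | n + 1 => 4 * pos w n + (if w n then 3 else 0)

lemma pos_lt (w : ℕ → Bool) (n : ℕ) : pos w n + 1 ≤ 2 ^ (2 * n) := by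
  induction n with
  | zero => simp [pos]
  | succ n ih =>
    rw [pos, show 2 ^ (2 * (n + 1)) = 4 * 2 ^ (2 * n) by rw [mul_add, pow_add]; ring]
    split <;> omega

lemma pos_congr {w w' : ℕ → Bool} {n : ℕ} (h : ∀ k < n, w k = w' k) : pos w n = pos w' n := by
  induction n with
  | zero => rfl
  | succ n ih => rw [pos, pos, ih fun k hk => h k (by omega), h n (by omega)]

variable (ι : α → ℝ) (hι : StrictMono ι)
  (nest : ∀ l u : ℕ → α, (∀ n m, l n ≤ u m) → ∃ x, ∀ n, l n ≤ x ∧ x ≤ u n)

include hι nest

/-- Between two reflexive points there is no non-reflexive point. -/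
lemma between (h : Laws F) {a b y : α} (ha : F a a = a) (hb : F b b = b) (hay : a < y)
    (hyb : y < b) : F y y = y := by
  by_contra hne
  have hab : a ≤ b := (hay.trans hyb).le
  have gm := fun n => grid_mono h hab n
  have g4 : ∀ n i, grid F a b (2 * (n + 1)) (4 * i) = grid F a b (2 * n) i := by
    intro n i
    rw [show 2 * (n + 1) = 2 * n + 1 + 1 by ring, show 4 * i = 2 * (2 * i) by ring,
      grid_double h ha hb, grid_double h ha hb]
  -- the gap
  set p := min y (F y y) with hp
  set q := max y (F y y) with hq
  have hpq : p < q := by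
    rcases lt_or_gt_of_ne hne with h1 | h1
    · rw [hp, hq, min_eq_right h1.le, max_eq_left h1.le]; exact h1
    · rw [hp, hq, min_eq_left h1.le, max_eq_right h1.le]; exact h1
  have gap : ∀ m, ∃ i, i + 1 ≤ 2 ^ m ∧ grid F a b m i ≤ p ∧ q ≤ grid F a b m (i + 1) := by
    intro m
    classical
    set i := Nat.findGreatest (fun i => grid F a b m i ≤ y) (2 ^ m) with hi
    have h0 : grid F a b m i ≤ y := by
      have := Nat.findGreatest_spec (P := fun i => grid F a b m i ≤ y) (Nat.zero_le (2 ^ m))
        (by rw [grid_zero h ha hb]; exact hay.le)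
      exact this
    have hle : i ≤ 2 ^ m := Nat.findGreatest_le _
    have hlt : i < 2 ^ m := by
      rcases hle.lt_or_eq with h1 | h1
      · exact h1
      · rw [h1, grid_top h ha hb] at h0
        exact absurd h0 (not_le.2 hyb)
    have h1 : y < grid F a b m (i + 1) := by
      by_contra hc
      have := Nat.le_findGreatest (P := fun i => grid F a b m i ≤ y) (n := 2 ^ m) (m := i + 1)
        hlt (not_lt.1 hc)
      omega
    refine ⟨i, hlt, le_min h0 ?_, max_le h1.le ?_⟩
    · rw [← grid_refl h ha hb m i]
      exact h.mono' h0 h0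
    · rw [← grid_refl h ha hb m (i + 1)]
      exact h.mono' h1.le h1.le
  -- the points
  have lower : ∀ w, Monotone fun n => grid F a b (2 * n) (pos w n) := fun w =>
    monotone_nat_of_le_succ fun n => by
      rw [← g4, pos]
      exact gm _ (by omega)
  have upper : ∀ w, Antitone fun n => grid F a b (2 * n) (pos w n + 1) := fun w =>
    antitone_nat_of_succ_le fun n => by
      rw [← g4 n (pos w n + 1), pos]
      refine gm _ ?_
      split <;> omega
  have key : ∀ w : ℕ → Bool, ∃ x, ∀ n, grid F a b (2 * n) (pos w n) ≤ x ∧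
      x ≤ grid F a b (2 * n) (pos w n + 1) := by
    intro w
    refine nest _ _ fun n m => ?_
    calc grid F a b (2 * n) (pos w n) ≤ grid F a b (2 * (max n m)) (pos w (max n m)) :=
          lower w (le_max_left n m)
      _ ≤ grid F a b (2 * (max n m)) (pos w (max n m) + 1) := gm _ (by omega)
      _ ≤ _ := upper w (le_max_right n m)
  choose x hx using key
  have sep : ∀ w w' : ℕ → Bool, ∀ n, (∀ k < n, w k = w' k) → w n = false → w' n = true →
      F q (x w) ≤ F p (x w') := by
    intro w w' n hn h0 h1
    obtain ⟨i, hi, hip, hiq⟩ := gap (2 * (n + 1))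
    calc F q (x w) ≤ F (grid F a b (2 * (n + 1)) (i + 1)) (grid F a b (2 * (n + 1)) (pos w (n + 1) + 1)) :=
          h.mono' hiq (hx w (n + 1)).2
      _ = grid F a b (2 * (n + 1) + 1) (i + 1 + (pos w (n + 1) + 1)) :=
          grid_add h _ _ _ hi (pos_lt w (n + 1))
      _ ≤ grid F a b (2 * (n + 1) + 1) (i + pos w' (n + 1)) := by
          refine gm _ ?_
          rw [pos, pos, pos_congr hn, h0, h1]
          simp
          omega
      _ = F (grid F a b (2 * (n + 1)) i) (grid F a b (2 * (n + 1)) (pos w' (n + 1))) :=
          (grid_add h _ _ _ (by omega) (by have := pos_lt w' (n + 1); omega)).symm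
      _ ≤ F p (x w') := h.mono' hip (hx w' (n + 1)).1
  refine no_family (fun w => ι (F p (x w))) (fun w => ι (F q (x w)))
    (fun w => hι (h.lt_left hpq _)) fun w w' hne => ?_
  obtain ⟨n, hn, hd⟩ := first_diff hne
  cases hw : w n
  · have hw' : w' n = true := by
      cases h' : w' n
      · exact absurd (hw.trans h'.symm) hd
      · rfl
    exact Or.inl (hι.monotone (sep w w' n hn hw hw'))
  · have hw' : w' n = false := by
      cases h' : w' n
      · rfl
      · exact absurd (hw.trans h'.symm) hd
    exact Or.inr (hι.monotone (sep w' w n (fun k hk => (hn k hk).symm) hw' hw))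

/-- Points of nested images under two maps. -/
def comp (g : Bool → α → α) (w : ℕ → Bool) : ℕ → α → α
  | 0, x => x
  | n + 1, x => comp g w n (g (w n) x)

omit [LinearOrder α] hι nest in
lemma comp_congr {g : Bool → α → α} {w w' : ℕ → Bool} {n : ℕ} (h : ∀ k < n, w k = w' k) (x : α) :
    comp g w n x = comp g w' n x := by
  induction n generalizing x with
  | zero => rfl
  | succ n ih => rw [comp, comp, ih (fun k hk => h k (by omega)), h n (by omega)]

/-- The main step: a reflexive point below another one forces `y ≤ F y y` above it. -/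
lemma above (h : Laws F) {a b y : α} (ha : F a a = a) (hb : F b b = b) (hab : a < b)
    (hay : a ≤ y) : y ≤ F y y := by
  by_contra hne
  rw [not_le] at hne
  by_cases hS : ∀ k, (F b)^[k] a ≤ (F a)^[k] y
  swap
  · push Not at hS
    obtain ⟨k, hk⟩ := hS
    have hm : StrictMono (F a)^[k] := (h.mono a).iterate k
    have hay' : a < y := by
      rcases hay.lt_or_eq with h1 | h1
      · exact h1
      · rw [← h1, ha] at hne
        exact absurd hne (lt_irrefl _)
    have h1 : a < (F a)^[k] y := by
      calc a = (F a)^[k] a := (iter_fix ha k).symm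
        _ < _ := hm hay'
    have h2 : (F a)^[k] y < b := by
      calc (F a)^[k] y < (F b)^[k] a := hk
        _ ≤ (F b)^[k] b := ((h.mono b).iterate k).monotone hab.le
        _ = b := iter_fix hb k
    have h3 := between ι hι nest h ha hb h1 h2
    rw [← h.endo_iter ha] at h3
    exact absurd (hm.injective h3) hne.ne
  -- the relation `S v v' : ∀ k, (F b)^[k] v ≤ (F a)^[k] v'`
  have step : ∀ c v v', (∀ k, (F b)^[k] v ≤ (F a)^[k] v') →
      ∀ k, (F b)^[k] (F c v) ≤ (F a)^[k] (F c v') := by
    intro c v v' hv k
    rw [← (h.mono a).le_iff_le]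
    have e1 : ∀ z, F a ((F b)^[k] z) = (F (F a b))^[k] (F a z) := by
      have : Function.Semiconj (F a) (F b) (F (F a b)) := fun z => h.endo ha b z
      intro z
      exact this.iterate_right k z
    have e2 : ∀ (k : ℕ) p q, (F (F a b))^[k] (F p q) = F ((F a)^[k] p) ((F b)^[k] q) := by
      intro k
      induction k with
      | zero => intro p q; rfl
      | succ k ih =>
        intro p q
        rw [Function.iterate_succ_apply, h.bis, ih, ← Function.iterate_succ_apply,
          ← Function.iterate_succ_apply]
    have e3 : F a ((F a)^[k] (F c v')) = F ((F a)^[k + 1] c) ((F a)^[k + 1] v') := by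
      rw [← Function.iterate_succ_apply' (F a), h.endo_iter ha]
    rw [e1, h.endo ha c v, e2, e3]
    refine h.mono' le_rfl ?_
    calc (F b)^[k] (F a v) ≤ (F b)^[k] (F b v) :=
          ((h.mono b).iterate k).monotone (h.mono' hab.le le_rfl)
      _ = (F b)^[k + 1] v := rfl
      _ ≤ (F a)^[k + 1] v' := hv (k + 1)
  -- the maps
  set g : Bool → α → α := fun t x => if t then F y (F y x) else F a (F a x) with hg
  have hgm : ∀ t, Monotone (g t) := by
    intro t x x' hxx
    cases t
    · exact h.mono' le_rfl (h.mono' le_rfl hxx)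
    · exact h.mono' le_rfl (h.mono' le_rfl hxx)
  have hlo : ∀ t, a ≤ g t a := by
    intro t
    cases t
    · simp [hg, ha]
    · change a ≤ F y (F y a)
      have h1 : a ≤ F y a := by
        calc a = F a a := ha.symm
          _ ≤ F y a := h.mono' hay le_rfl
      calc a = F a a := ha.symm
        _ ≤ F y (F y a) := h.mono' hay h1
  have hup : ∀ t, g t y ≤ y := by
    intro t
    cases t
    · change F a (F a y) ≤ y
      exact (h.mono' hay ((h.mono' hay le_rfl).trans hne.le)).trans hne.le
    · change F y (F y y) ≤ y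
      exact (h.mono' le_rfl hne.le).trans hne.le
  have hcm : ∀ w n, Monotone (comp g w n) := by
    intro w n
    induction n with
    | zero => exact monotone_id
    | succ n ih => exact fun x x' hxx => ih (hgm _ hxx)
  have hcS : ∀ w n v v', (∀ k, (F b)^[k] v ≤ (F a)^[k] v') →
      ∀ k, (F b)^[k] (comp g w n v) ≤ (F a)^[k] (comp g w n v') := by
    intro w n
    induction n with
    | zero => intro v v' hv; exact hv
    | succ n ih =>
      intro v v' hv
      refine ih _ _ ?_
      cases w n
      · exact step _ _ _ (step _ _ _ hv)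
      · exact step _ _ _ (step _ _ _ hv)
  have lower : ∀ w, Monotone fun n => comp g w n a := fun w =>
    monotone_nat_of_le_succ fun n => hcm w n (hlo _)
  have upper : ∀ w, Antitone fun n => comp g w n y := fun w =>
    antitone_nat_of_succ_le fun n => hcm w n (hup _)
  have key : ∀ w : ℕ → Bool, ∃ x, ∀ n, comp g w n a ≤ x ∧ x ≤ comp g w n y := by
    intro w
    refine nest _ _ fun n m => ?_
    calc comp g w n a ≤ comp g w (max n m) a := lower w (le_max_left n m)
      _ ≤ comp g w (max n m) y := hcm w _ hay
      _ ≤ _ := upper w (le_max_right n m)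
  choose x hx using key
  have sep : ∀ w w' : ℕ → Bool, ∀ n, (∀ k < n, w k = w' k) → w n = false → w' n = true →
      F b (x w) ≤ F a (x w') := by
    intro w w' n hn h0 h1
    have e0 : comp g w (n + 1) y = comp g w n (F a (F a y)) := by
      rw [comp, h0, hg]; rfl
    have e1 : comp g w' (n + 1) a = comp g w n (F y (F a y)) := by
      rw [comp, h1, ← comp_congr hn, hg, h.sym a y]; rfl
    have hS' := hcS w n _ _ (step (F a y) a y hS) 1
    rw [Function.iterate_one, Function.iterate_one, h.sym (F a y) a, h.sym (F a y) y, ← e0, ← e1]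
      at hS'
    exact (h.mono' le_rfl (hx w (n + 1)).2).trans (hS'.trans (h.mono' le_rfl (hx w' (n + 1)).1))
  refine no_family (fun w => ι (F a (x w))) (fun w => ι (F b (x w)))
    (fun w => hι (h.lt_left hab _)) fun w w' hne => ?_
  obtain ⟨n, hn, hd⟩ := first_diff hne
  cases hw : w n
  · have hw' : w' n = true := by
      cases h' : w' n
      · exact absurd (hw.trans h'.symm) hd
      · rfl
    exact Or.inl (hι.monotone (sep w w' n hn hw hw'))
  · have hw' : w' n = false := by
      cases h' : w' n
      · rfl
      · exact absurd (hw.trans h'.symm) hd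
    exact Or.inr (hι.monotone (sep w' w n (fun k hk => (hn k hk).symm) hw' hw))

end abstract

section dual

variable {α : Type*} [LinearOrder α] {F : α → α → α}

/-- The order dual version of `above`. -/
lemma below (ι : α → ℝ) (hι : StrictMono ι)
    (nest : ∀ l u : ℕ → α, (∀ n m, l n ≤ u m) → ∃ x, ∀ n, l n ≤ x ∧ x ≤ u n)
    (h : Laws F) {a b y : α} (ha : F a a = a) (hb : F b b = b) (hab : a < b)
    (hyb : y ≤ b) : F y y ≤ y := by
  let G : αᵒᵈ → αᵒᵈ → αᵒᵈ := fun x y => OrderDual.toDual (F (OrderDual.ofDual x) (OrderDual.ofDual y))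
  have hG : Laws G :=
    { bis := fun x y u v => congrArg OrderDual.toDual (h.bis _ _ _ _)
      sym := fun x y => congrArg OrderDual.toDual (h.sym _ _)
      mono := fun x y y' hy => h.mono (OrderDual.ofDual x) (show OrderDual.ofDual y' < OrderDual.ofDual y from hy) }
  exact above (α := αᵒᵈ) (F := G) (fun x => -ι (OrderDual.ofDual x))
    (fun x y hxy => neg_lt_neg (hι (show OrderDual.ofDual y < OrderDual.ofDual x from hxy)))
    (fun l u hlu => by
      obtain ⟨x, hx⟩ := nest (fun n => OrderDual.ofDual (u n)) (fun n => OrderDual.ofDual (l n))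
        (fun n m => hlu m n)
      exact ⟨OrderDual.toDual x, fun n => ⟨(hx n).2, (hx n).1⟩⟩)
    hG (a := OrderDual.toDual b) (b := OrderDual.toDual a) (y := OrderDual.toDual y)
    (congrArg OrderDual.toDual hb) (congrArg OrderDual.toDual ha) hab hyb

end dual

end Pool.Agent.H34.Bisym
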