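import Pool.Agent.H34.Bisym.Nec

/-! Helper file: operations with a prescribed set of reflexive points. -/

set_option autoImplicit false

namespace Pool.Agent.H34.Bisym

open Set

/-! ### The model operation on the line -/

section model

variable (cl cr : Prop)

/-- Whether level `n` contains its left end. -/
def a0 (n : ℤ) : Prop := (n ≤ 0 → cl) ∧ (0 < n → ¬ cr)

/-- The allowed fractional parts at level `n`. -/
def Al (n : ℤ) (r : ℝ) : Prop := 0 ≤ r ∧ r ≤ 1 ∧ (r = 0 → a0 cl cr n) ∧ (r = 1 → ¬ a0 cl cr (n + 1))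

open Classical in
/-- The level of a real number. -/
noncomputable def lev (u : ℝ) : ℤ := if (⌊u⌋ : ℝ) = u ∧ ¬ a0 cl cr ⌊u⌋ then ⌊u⌋ - 1 else ⌊u⌋

lemma lev_spec (u : ℝ) : Al cl cr (lev cl cr u) (u - lev cl cr u) := by
  unfold lev
  have h1 := Int.floor_le u
  have h2 := Int.lt_floor_add_one u
  split_ifs with h
  · obtain ⟨h3, h4⟩ := h
    refine ⟨?_, ?_, ?_, ?_⟩
    · push_cast; linarith
    · push_cast; linarith
    · intro h5; push_cast at h5; linarith
    · intro _; simpa using h4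
  · refine ⟨by linarith, by linarith, fun h5 => ?_, fun h5 => by linarith⟩
    by_contra h6
    exact h ⟨by linarith, h6⟩

lemma lev_unique {u : ℝ} {n : ℤ} (h : Al cl cr n (u - n)) : lev cl cr u = n := by
  obtain ⟨h1, h2, h3, h4⟩ := h
  unfold lev
  rcases h2.lt_or_eq with h5 | h5
  · have hf : ⌊u⌋ = n := Int.floor_eq_iff.2 ⟨by linarith, by linarith⟩
    rw [if_neg, hf]
    rintro ⟨h6, h7⟩
    rw [hf] at h6 h7
    exact h7 (h3 (by linarith))
  · have hf : ⌊u⌋ = n + 1 := Int.floor_eq_iff.2 ⟨by push_cast; linarith, by push_cast; linarith⟩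
    rw [if_pos, hf]
    · ring
    · rw [hf]
      exact ⟨by push_cast; linarith, h4 h5⟩

lemma Al_add {m n : ℤ} {r s : ℝ} (h : Al cl cr m r) (h' : Al cl cr n s) :
    Al cl cr (m + n) ((r + s) / 2) := by
  obtain ⟨h1, h2, h3, h4⟩ := h
  obtain ⟨h1', h2', h3', h4'⟩ := h'
  refine ⟨by linarith, by linarith, fun h5 => ?_, fun h5 => ?_⟩
  · have e1 := h3 (by linarith)
    have e2 := h3' (by linarith)
    refine ⟨fun h6 => ?_, fun h6 => ?_⟩
    · rcases le_or_gt m 0 with h7 | h7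
      · exact e1.1 h7
      · exact e2.1 (by omega)
    · rcases le_or_gt m 0 with h7 | h7
      · exact e2.2 (by omega)
      · exact e1.2 h7
  · have e1 := h4 (by linarith)
    have e2 := h4' (by linarith)
    intro h6
    rcases le_or_gt (m + n + 1) 0 with h8 | h8
    · have hc := h6.1 h8
      rcases le_or_gt (m + 1) 0 with h7 | h7
      · exact e1 ⟨fun _ => hc, fun h => absurd h (by omega)⟩
      · exact e2 ⟨fun _ => hc, fun h => absurd h (by omega)⟩
    · have hc := h6.2 h8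
      rcases le_or_gt (m + 1) 0 with h7 | h7
      · exact e2 ⟨fun h => absurd h (by omega), fun _ => hc⟩
      · exact e1 ⟨fun h => absurd h (by omega), fun _ => hc⟩

/-- The model operation. -/
noncomputable def F0 (u v : ℝ) : ℝ := (u + v + lev cl cr u + lev cl cr v) / 2

lemma lev_F0 (u v : ℝ) : lev cl cr (F0 cl cr u v) = lev cl cr u + lev cl cr v := by
  apply lev_unique
  have := Al_add cl cr (lev_spec cl cr u) (lev_spec cl cr v)
  convert this using 1
  unfold F0
  push_cast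
  ring

lemma lev_mono : Monotone (lev cl cr) := by
  intro u v huv
  rcases huv.lt_or_eq with h | h
  · have h1 := (lev_spec cl cr u).1
    have h2 := (lev_spec cl cr v).2.1
    have h3 : (lev cl cr u : ℝ) < lev cl cr v + 1 := by linarith
    have h4 : lev cl cr u < lev cl cr v + 1 := by exact_mod_cast h3
    omega
  · rw [h]

lemma F0_bis (x y u v : ℝ) :
    F0 cl cr (F0 cl cr x y) (F0 cl cr u v) = F0 cl cr (F0 cl cr x u) (F0 cl cr y v) := by
  have e : ∀ s t, F0 cl cr s t = (s + t + lev cl cr s + lev cl cr t) / 2 := fun _ _ => rfl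
  rw [e (F0 cl cr x y), e (F0 cl cr x u), lev_F0, lev_F0, lev_F0, lev_F0, e x y, e u v, e x u, e y v]
  push_cast
  ring

lemma F0_lt (u : ℝ) {v v' : ℝ} (h : v < v') : F0 cl cr u v < F0 cl cr u v' := by
  have h1 : (lev cl cr v : ℝ) ≤ lev cl cr v' := by exact_mod_cast lev_mono cl cr h.le
  unfold F0
  linarith

end model

/-! ### The chart -/

lemma up (I J : Set ℝ) (hJ : J.Nonempty) (hmax : ∀ m, IsGreatest I m → m ∈ J) :
    ∃ C : ℝ → ℝ, ContinuousOn C I ∧ MonotoneOn C I ∧ (∀ x ∈ I, 0 ≤ C x) ∧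
      (∀ x ∈ I, (∃ j ∈ J, x ≤ j) → C x = 0) ∧ StrictMonoOn C {x | x ∈ I ∧ ∀ j ∈ J, j ≤ x} ∧
      ((∃ x ∈ I, ∀ j ∈ J, j < x) → ∀ N : ℝ, ∃ x ∈ I, N ≤ C x) := by
  by_cases hU : ∃ x ∈ I, ∀ j ∈ J, j < x
  swap
  · refine ⟨fun _ => 0, continuousOn_const, fun _ _ _ _ _ => le_rfl, fun _ _ => le_rfl,
      fun _ _ _ => rfl, ?_, fun h => absurd h hU⟩
    rintro x ⟨hx, hx'⟩ y ⟨hy, hy'⟩ hxy
    exact absurd ⟨y, hy, fun j hj => (hx' j hj).trans_lt hxy⟩ hU
  obtain ⟨x0, hx0, hx0'⟩ := hU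
  set c := Real.arctan with hc
  have cm : StrictMono c := Real.arctan_strictMono
  have bdd : ∀ S : Set ℝ, BddAbove (c '' S) := by
    intro S
    refine ⟨Real.pi / 2, ?_⟩
    rintro _ ⟨x, -, rfl⟩
    exact (Real.arctan_lt_pi_div_two x).le
  set q := sSup (c '' J) with hq
  set Q := sSup (c '' I) with hQ
  have hqle : ∀ j ∈ J, c j ≤ q := fun j hj => le_csSup (bdd J) ⟨j, hj, rfl⟩
  have hQle : ∀ j ∈ I, c j ≤ Q := fun j hj => le_csSup (bdd I) ⟨j, hj, rfl⟩
  have hqW : ∀ x, (∀ j ∈ J, j ≤ x) → q ≤ c x := by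
    intro x hx
    refine csSup_le (hJ.image c) ?_
    rintro _ ⟨j, hj, rfl⟩
    exact cm.monotone (hx j hj)
  have hlt : ∀ x ∈ I, c x < Q := by
    intro x hx
    rcases (hQle x hx).lt_or_eq with h1 | h1
    · exact h1
    · have hg : IsGreatest I x := ⟨hx, fun y hy => by
        have := hQle y hy
        rw [← h1] at this
        exact cm.le_iff_le.1 this⟩
      have h2 := hx0' x (hmax x hg)
      exact absurd (hg.2 hx0) (not_le.2 h2)
  obtain ⟨x1, hx1, hx1'⟩ : ∃ x1 ∈ I, x0 < x1 := by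
    by_contra hcon
    push Not at hcon
    exact lt_irrefl _ (hx0' x0 (hmax x0 ⟨hx0, hcon⟩))
  have hqx1 : q < c x1 := (hqW x0 fun j hj => (hx0' j hj).le).trans_lt (cm hx1')
  refine ⟨fun x => max 0 (c x - q) / (Q - c x), ?_, ?_, ?_, ?_, ?_, ?_⟩
  · refine ContinuousOn.div ?_ ?_ fun x hx => (sub_pos.2 (hlt x hx)).ne'
    · exact (continuous_const.max (Real.continuous_arctan.sub continuous_const)).continuousOn
    · exact (continuous_const.sub Real.continuous_arctan).continuousOn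
  · intro x hx y hy hxy
    exact div_le_div₀ (le_max_left _ _) (max_le_max le_rfl (by linarith [cm.monotone hxy]))
      (sub_pos.2 (hlt y hy)) (by linarith [cm.monotone hxy])
  · intro x hx
    exact div_nonneg (le_max_left _ _) (sub_pos.2 (hlt x hx)).le
  · rintro x hx ⟨j, hj, hxj⟩
    have : c x ≤ q := (cm.monotone hxj).trans (hqle j hj)
    change max 0 (c x - q) / (Q - c x) = 0
    rw [max_eq_left (by linarith), zero_div]
  · rintro x ⟨hx, hx'⟩ y ⟨hy, hy'⟩ hxy
    have h1 := hqW x hx'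
    have h2 := cm hxy
    have h3 := sub_pos.2 (hlt y hy)
    have h4 := sub_pos.2 (hlt x hx)
    change max 0 (c x - q) / (Q - c x) < max 0 (c y - q) / (Q - c y)
    rw [max_eq_right (by linarith), max_eq_right (by linarith), div_lt_div_iff₀ h4 h3]
    nlinarith
  · intro _ N
    set N' := max N 1 with hN'
    have hN1 : 1 ≤ N' := le_max_right _ _
    have hpos : 0 < (c x1 - q) / N' := div_pos (by linarith) (by linarith)
    obtain ⟨_, ⟨x, hx, rfl⟩, hx2⟩ := exists_lt_of_lt_csSup (Set.Nonempty.image c ⟨x0, hx0⟩)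
      (show max (c x1) (Q - (c x1 - q) / N') < sSup (c '' I) from
        max_lt (hlt x1 hx1) (by rw [← hQ]; linarith))
    refine ⟨x, hx, (le_max_left N 1).trans ?_⟩
    have h4 := sub_pos.2 (hlt x hx)
    have h5 := (le_max_left _ _).trans_lt hx2
    have h6 := (le_max_right _ _).trans_lt hx2
    change N' ≤ max 0 (c x - q) / (Q - c x)
    rw [max_eq_right (by linarith), le_div_iff₀ h4]
    have h7 : Q - c x ≤ (c x1 - q) / N' := by linarith
    rw [le_div_iff₀ (by linarith)] at h7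
    nlinarith

/-- A chart of `I` in which `J` becomes an interval with ends `0` and `1`. -/
lemma chart (I J : Set ℝ) (hJn : J.Nontrivial) (hJI : J ⊆ I)
    (hmax : ∀ m, IsGreatest I m → m ∈ J) (hmin : ∀ m, IsLeast I m → m ∈ J) :
    ∃ θ : ℝ → ℝ, StrictMonoOn θ I ∧ ContinuousOn θ I ∧ (∀ x ∈ J, 0 ≤ θ x ∧ θ x ≤ 1) ∧
      (∀ x ∈ I, (∀ j ∈ J, j < x) → 1 ≤ θ x) ∧ (∀ x ∈ I, (∀ j ∈ J, x < j) → θ x ≤ 0) ∧
      ((∃ x ∈ I, ∀ j ∈ J, j < x) → ∀ N : ℝ, ∃ x ∈ I, N ≤ θ x) ∧
      ((∃ x ∈ I, ∀ j ∈ J, x < j) → ∀ N : ℝ, ∃ x ∈ I, θ x ≤ N) := by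
  obtain ⟨C, hC1, hC2, hC3, hC4, hC5, hC6⟩ := up I J hJn.nonempty hmax
  obtain ⟨D, hD1, hD2, hD3, hD4, hD5, hD6⟩ := up (Neg.neg ⁻¹' I) (Neg.neg ⁻¹' J)
    (by obtain ⟨j, hj⟩ := hJn.nonempty; exact ⟨-j, by simpa using hj⟩)
    (fun m hm => hmin (-m) ⟨hm.1, fun y hy => by
      have := hm.2 (show -y ∈ Neg.neg ⁻¹' I by simpa using hy)
      linarith⟩)
  obtain ⟨j1, hj1, j2, hj2, hj12⟩ := hJn.exists_lt
  set c := Real.arctan with hc
  have cm : StrictMono c := Real.arctan_strictMono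
  have bddA : BddAbove (c '' J) := by
    refine ⟨Real.pi / 2, ?_⟩
    rintro _ ⟨x, -, rfl⟩
    exact (Real.arctan_lt_pi_div_two x).le
  have bddB : BddBelow (c '' J) := by
    refine ⟨-(Real.pi / 2), ?_⟩
    rintro _ ⟨x, -, rfl⟩
    exact (Real.neg_pi_div_two_lt_arctan x).le
  set q := sSup (c '' J) with hq
  set p := sInf (c '' J) with hp
  have hqle : ∀ j ∈ J, c j ≤ q := fun j hj => le_csSup bddA ⟨j, hj, rfl⟩
  have hple : ∀ j ∈ J, p ≤ c j := fun j hj => csInf_le bddB ⟨j, hj, rfl⟩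
  have hpq : p < q := (hple j1 hj1).trans_lt ((cm hj12).trans_le (hqle j2 hj2))
  set B : ℝ → ℝ := fun x => (max p (min q (c x)) - p) / (q - p) with hB
  have hB0 : ∀ x, 0 ≤ B x := fun x => div_nonneg (sub_nonneg.2 (le_max_left _ _)) (by linarith)
  have hB1 : ∀ x, B x ≤ 1 := fun x => by
    rw [hB]
    simp only
    rw [div_le_one (by linarith)]
    have : max p (min q (c x)) ≤ q := max_le hpq.le (min_le_left _ _)
    linarith
  have hBm : Monotone B := fun x y hxy =>
    div_le_div_of_nonneg_right (sub_le_sub_right (max_le_max le_rfl (min_le_min le_rfl (cm.monotone hxy))) _)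
      (by linarith)
  have hBc : Continuous B :=
    ((continuous_const.max (continuous_const.min Real.continuous_arctan)).sub continuous_const).div_const _
  have hA1 : MonotoneOn (fun x => -D (-x)) I := fun x hx y hy hxy =>
    neg_le_neg (hD2 (show -y ∈ Neg.neg ⁻¹' I by simpa using hy)
      (show -x ∈ Neg.neg ⁻¹' I by simpa using hx) (neg_le_neg hxy))
  have memI : ∀ x ∈ I, -x ∈ (Neg.neg ⁻¹' I : Set ℝ) := fun x hx => by simpa using hx
  have hAz : ∀ x ∈ I, (∃ j ∈ J, j ≤ x) → D (-x) = 0 := by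
    rintro x hx ⟨j, hj, hjx⟩
    exact hD4 (-x) (memI x hx) ⟨-j, by simpa using hj, by linarith⟩
  refine ⟨fun x => B x + C x - D (-x), ?_, ?_, ?_, ?_, ?_, ?_, ?_⟩
  · intro x hx y hy hxy
    have b1 := hBm hxy.le
    have c1 := hC2 hx hy hxy.le
    have a1 := hA1 hx hy hxy.le
    simp only at a1 ⊢
    by_cases h1 : ∀ j ∈ J, j ≤ x
    · have := hC5 ⟨hx, h1⟩ ⟨hy, fun j hj => (h1 j hj).trans hxy.le⟩ hxy
      linarith
    by_cases h2 : ∀ j ∈ J, y ≤ j
    · have := hD5 (a := -y) (b := -x) ⟨memI y hy, fun j hj => by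
          have := h2 (-j) hj
          linarith⟩
        ⟨memI x hx, fun j hj => by
          have := h2 (-j) hj
          linarith⟩ (by linarith)
      linarith
    push Not at h1 h2
    obtain ⟨j, hj, hxj⟩ := h1
    obtain ⟨j', hj', hjy⟩ := h2
    have e1 : c x < q := (cm hxj).trans_le (hqle j hj)
    have e2 : p < c y := (hple j' hj').trans_lt (cm hjy)
    have e3 : max p (min q (c x)) < max p (min q (c y)) := by
      rw [min_eq_right e1.le, max_eq_right (le_min hpq.le e2.le)]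
      exact max_lt (lt_min hpq e2) (lt_min e1 (cm hxy))
    have : B x < B y := div_lt_div_of_pos_right (by linarith) (by linarith)
    linarith
  · refine (hBc.continuousOn.add hC1).sub ?_
    exact hD1.comp continuous_neg.continuousOn fun x hx => memI x hx
  · intro x hx
    have e1 := hC4 x (hJI hx) ⟨x, hx, le_rfl⟩
    have e2 := hAz x (hJI hx) ⟨x, hx, le_rfl⟩
    simp only [e1, e2]
    exact ⟨by linarith [hB0 x], by linarith [hB1 x]⟩
  · intro x hx hx'
    have e2 := hAz x hx ⟨j1, hj1, (hx' j1 hj1).le⟩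
    have e3 := hC3 x hx
    have e4 : q ≤ c x := by
      refine csSup_le (hJn.nonempty.image c) ?_
      rintro _ ⟨j, hj, rfl⟩
      exact cm.monotone (hx' j hj).le
    have e5 : B x = 1 := by
      rw [hB]
      simp only
      rw [min_eq_left e4, max_eq_right hpq.le, div_self (by linarith)]
    simp only [e2, e5]
    linarith
  · intro x hx hx'
    have e2 := hC4 x hx ⟨j1, hj1, (hx' j1 hj1).le⟩
    have e3 := hD3 (-x) (memI x hx)
    have e4 : c x ≤ p := by
      refine le_csInf (hJn.nonempty.image c) ?_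
      rintro _ ⟨j, hj, rfl⟩
      exact cm.monotone (hx' j hj).le
    have e5 : B x = 0 := by
      rw [hB]
      simp only
      rw [min_eq_right (e4.trans hpq.le), max_eq_left e4, sub_self, zero_div]
    simp only [e2, e5]
    linarith
  · rintro ⟨x0, hx0, hx0'⟩ N
    obtain ⟨x, hx, hNx⟩ := hC6 ⟨x0, hx0, hx0'⟩ (max N 1)
    have hx1 : ∀ j ∈ J, j ≤ x := by
      intro j hj
      by_contra hcon
      rw [hC4 x hx ⟨j, hj, (not_le.1 hcon).le⟩] at hNx
      linarith [le_max_right N 1]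
    refine ⟨x, hx, ?_⟩
    have e2 := hAz x hx ⟨j1, hj1, hx1 j1 hj1⟩
    simp only [e2]
    linarith [hB0 x, le_max_left N 1]
  · rintro ⟨x0, hx0, hx0'⟩ N
    obtain ⟨x, hx, hNx⟩ := hD6 ⟨-x0, memI x0 hx0, fun j hj => by
      have := hx0' (-j) hj
      linarith⟩ (max (-N + 1) 1)
    have hx1 : ∀ j ∈ J, -x ≤ j := by
      intro j hj
      by_contra hcon
      rw [hD4 x hx ⟨-j, by simpa using hj, by linarith⟩] at hNx
      linarith [le_max_right (-N + 1) 1]
    refine ⟨-x, hx, ?_⟩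
    have e2 := hC4 (-x) hx ⟨j1, hj1, hx1 j1 hj1⟩
    simp only [e2, neg_neg]
    linarith [hB1 (-x), le_max_left (-N + 1) 1]

end Pool.Agent.H34.Bisym
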